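import Pool.Agent.H9.FC.TB

/-! BOX: small facts on `Big`, `boxF`, `meetF`. -/

set_option autoImplicit false

namespace Pool.Agent.H65.FC

open Set Pool.Agent.H9.FC

theorem pf_BGM : T_BGM := by
  intro p m n d
  induction d generalizing n with
  | zero =>
    intro T T' h hB
    exact h hB
  | succ d ih =>
    rintro T T' h ⟨C, hC, hb, hB⟩
    exact ⟨C, hC, hb, fun c hc => ih (n + 1) _ _ (fun u hu => h hu) (hB c hc)⟩

theorem mem_boxF_succ {p : Par} {n d : ℕ} {u : List ℕ} :
    u ∈ boxF p n (d + 1) ↔ ∃ c v, u = c :: v ∧ c < p.b n ∧ v ∈ boxF p (n + 1) d := by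
  rw [boxF]
  simp only [Finset.mem_biUnion, Finset.mem_range, Finset.mem_image]
  constructor
  · rintro ⟨c, hc, v, hv, rfl⟩
    exact ⟨c, v, rfl, hc, hv⟩
  · rintro ⟨c, v, rfl, hc, hv⟩
    exact ⟨c, hc, v, hv, rfl⟩

theorem pf_BOX : T_BOX := by
  intro p d
  induction d with
  | zero =>
    intro n u
    rw [boxF, Finset.mem_singleton]
    constructor
    · rintro rfl
      exact ⟨rfl, fun j hj => absurd hj (Nat.not_lt_zero j)⟩
    · rintro ⟨h, -⟩
      exact List.eq_nil_of_length_eq_zero h
  | succ d ih =>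
    intro n u
    rw [mem_boxF_succ]
    constructor
    · rintro ⟨c, v, rfl, hc, hv⟩
      obtain ⟨h1, h2⟩ := (ih (n + 1) v).1 hv
      refine ⟨by simp [h1], fun j hj => ?_⟩
      rcases j with _ | j
      · simpa using hc
      · have := h2 j (by omega)
        rw [List.getD_cons_succ]
        rwa [show n + (j + 1) = n + 1 + j by ring]
    · rintro ⟨h1, h2⟩
      rcases u with _ | ⟨c, v⟩
      · simp at h1
      · refine ⟨c, v, rfl, by simpa using h2 0 (by omega), (ih (n + 1) v).2 ⟨by simpa using h1, fun j hj => ?_⟩⟩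
        have := h2 (j + 1) (by omega)
        rw [List.getD_cons_succ] at this
        rwa [show n + 1 + j = n + (j + 1) by ring]

theorem pf_NBM : T_NBM := by
  intro p d
  induction d with
  | zero =>
    intro n h hB
    have h1 : [] ∈ meetF p n 0 h := hB
    rw [meetF, Finset.mem_filter] at h1
    obtain ⟨-, j, hj, -⟩ := h1
    exact Nat.not_lt_zero j hj
  | succ d ih =>
    rintro n h ⟨C, hC, -, hB⟩
    have h2 := p.e_two n
    obtain ⟨c, hc, hcn⟩ : ∃ c ∈ C, c ≠ h n := by
      by_contra hcon
      push Not at hcon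
      have h3 : C ⊆ {h n} := fun c hc => Finset.mem_singleton.2 (hcon c hc)
      have h4 := Finset.card_le_card h3
      rw [Finset.card_singleton] at h4
      omega
    refine ih (n + 1) h (pf_BGM p 0 (n + 1) d _ _ (fun u hu => ?_) (hB c hc))
    have hu' : c :: u ∈ meetF p n (d + 1) h := hu
    show u ∈ meetF p (n + 1) d h
    rw [meetF, Finset.mem_filter] at hu' ⊢
    obtain ⟨h3, j, hj, h4⟩ := hu'
    obtain ⟨c', v, h5, -, h6⟩ := mem_boxF_succ.1 h3
    obtain ⟨rfl, rfl⟩ : c = c' ∧ u = v := by simpa using h5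
    refine ⟨h6, ?_⟩
    rcases j with _ | j
    · exact absurd (by simpa using h4) hcn
    · refine ⟨j, by omega, ?_⟩
      rw [List.getD_cons_succ] at h4
      rw [h4]
      congr 1
      ring

theorem pf_FUL : T_FUL := by
  intro p m d
  induction d with
  | zero =>
    intro n _
    show [] ∈ boxF p n 0
    simp [boxF]
  | succ d ih =>
    intro n hmn
    have hle := p.e_b m n hmn
    refine ⟨Finset.range (p.e m n), by simp, fun c hc => ?_, fun c hc => ?_⟩
    · rw [Finset.mem_range] at hc
      omega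
    · rw [Finset.mem_range] at hc
      refine pf_BGM p m (n + 1) d _ _ (fun u hu => ?_) (ih (n + 1) (by omega))
      show c :: u ∈ boxF p n (d + 1)
      exact mem_boxF_succ.2 ⟨c, u, rfl, by omega, hu⟩

end Pool.Agent.H65.FC
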