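import Pool.Agent.H9.FC.TB

/-! DIA: diagonalization against countably many bounds. -/

set_option autoImplicit false

namespace Pool.Agent.H65.FC

open Set Pool.Agent.H9.FC

theorem big_mono {p : Par} {m n d : ℕ} {T T' : Set (List ℕ)} (h : T ⊆ T') (hB : Big p m n d T) :
    Big p m n d T' := by
  induction d generalizing n T T' with
  | zero => exact h hB
  | succ d ih =>
    obtain ⟨C, hC, hb, hB⟩ := hB
    exact ⟨C, hC, hb, fun c hc => ih (fun u hu => h hu) (hB c hc)⟩

/-- one step of the construction -/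
theorem dia_step (hBOX : T_BOX) (hFUL : T_FUL) {p : Par} {H : ℕ → ℕ → BVal}
    (hH : ∀ k, ∃ m, IsBound p m (H k)) (L : ℕ) (x : ℕ → ℕ) (hx : ∀ k, x k < p.b k) (k t : ℕ) :
    ∃ (L' : ℕ) (x' : ℕ → ℕ), L < L' ∧ (∀ j < L, x' j = x j) ∧ (∀ j, x' j < p.b j) ∧
      ∃ n ≥ t, ∀ x'' : ℕ → ℕ, (∀ j < L', x'' j = x' j) → ¬ Hit x'' (H k n) := by
  obtain ⟨m, hm⟩ := hH k
  obtain ⟨h1, h2⟩ := hm (L + m + t)
  set v := H k (L + m + t) with hv
  obtain ⟨u, hu, huS⟩ : ∃ u ∈ boxF p v.1 v.2.1, u ∉ v.2.2 := by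
    by_contra hcon
    push Not at hcon
    exact h2 (big_mono (fun u hu => hcon u hu) (hFUL p m v.2.1 v.1 (by omega)))
  obtain ⟨hl, hb⟩ := (hBOX p v.2.1 v.1 u).1 hu
  refine ⟨v.1 + v.2.1 + 1, fun j => if v.1 ≤ j ∧ j < v.1 + v.2.1 then u.getD (j - v.1) 0 else x j,
    by omega, fun j hj => ?_, fun j => ?_, L + m + t, by omega, fun x'' hx'' => ?_⟩
  · exact if_neg (by omega)
  · by_cases hj : v.1 ≤ j ∧ j < v.1 + v.2.1
    · simp only [hj, and_self, if_true]
      have := hb (j - v.1) (by omega)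
      rwa [show v.1 + (j - v.1) = j by omega] at this
    · simp only [hj, if_false]
      exact hx j
  · intro hit
    apply huS
    have h3 : res x'' v.1 v.2.1 = u := by
      unfold res
      refine List.ext_getElem (by simp [hl]) fun j h4 h5 => ?_
      rw [List.getElem_map, List.getElem_range, hx'' _ (by simp at h4; omega)]
      have h6 : j < v.2.1 := by simpa using h4
      simp only [show v.1 ≤ v.1 + j ∧ v.1 + j < v.1 + v.2.1 by omega, and_self, if_true]
      rw [Nat.add_sub_cancel_left, List.getD_eq_getElem _ _ h5]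
    rw [← h3]
    exact hit

theorem pf_DIA (hBOX : T_BOX) (hFUL : T_FUL) : T_DIA := by
  intro p H hH
  have hb0 : ∀ k, 0 < p.b k := fun k => lt_of_lt_of_le (by positivity) (p.b_ge k)
  choose fL fx f1 f2 f3 fn f4 f5 using fun (q : ℕ × {x : ℕ → ℕ // ∀ k, x k < p.b k}) (t : ℕ) =>
    dia_step hBOX hFUL hH q.1 q.2.1 q.2.2 (Nat.unpair t).1 t
  let s : ℕ → ℕ × {x : ℕ → ℕ // ∀ k, x k < p.b k} := fun t =>
    Nat.rec (0, ⟨fun _ => 0, hb0⟩) (fun t q => (fL q t, ⟨fx q t, f3 q t⟩)) t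
  have hs : ∀ t, s (t + 1) = (fL (s t) t, ⟨fx (s t) t, f3 (s t) t⟩) := fun t => rfl
  have hL : ∀ t, t ≤ (s t).1 := by
    intro t
    induction t with
    | zero => exact Nat.zero_le _
    | succ t ih =>
      rw [hs]
      have := f1 (s t) t
      show t + 1 ≤ fL (s t) t
      omega
  have hLm : ∀ t t', t ≤ t' → (s t).1 ≤ (s t').1 := by
    intro t t' h
    induction t', h using Nat.le_induction with
    | base => exact le_rfl
    | succ t' _ ih =>
      rw [hs]
      exact ih.trans (f1 (s t') t').le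
  have hag : ∀ t t', t ≤ t' → ∀ j < (s t).1, (s t').2.1 j = (s t).2.1 j := by
    intro t t' h
    induction t', h using Nat.le_induction with
    | base => exact fun j _ => rfl
    | succ t' h ih =>
      intro j hj
      rw [← ih j hj, hs]
      exact f2 (s t') t' j (hj.trans_le (hLm t t' h))
  refine ⟨fun k => (s (k + 1)).2.1 k, fun k => (s (k + 1)).2.2 k, fun k => ?_⟩
  have hlim : ∀ t, ∀ j < (s t).1, (s (j + 1)).2.1 j = (s t).2.1 j := by
    intro t j hj
    rcases le_total t (j + 1) with h | h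
    · exact hag _ _ h j hj
    · exact (hag _ _ h j ((Nat.lt_succ_self j).trans_le (hL (j + 1)))).symm
  rintro ⟨n₀, hn₀⟩
  have h1 := f5 (s (Nat.pair k n₀)) (Nat.pair k n₀) (fun j => (s (j + 1)).2.1 j) (fun j hj =>
    hlim (Nat.pair k n₀ + 1) j hj)
  rw [Nat.unpair_pair] at h1
  exact h1 (hn₀ _ ((Nat.right_le_pair k n₀).trans (f4 (s (Nat.pair k n₀)) (Nat.pair k n₀))))

end Pool.Agent.H65.FC
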